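import Mathlib
import Pool.Agent.Lib.MP_b95a42_nt.Defs
import Pool.Agent.Lib.MP_b95a42_nt.Main
import Pool.Agent.Lib.MP_b95a42_nt.Example

/-!
# Maximal Chebyshev hyperelliptic curves in characteristic `1 mod 4`

`H_d : y² = φ_d(x)`.  If `H_d` is maximal in a characteristic `p ≡ 1 mod 4`, `p ∤ d`, `d ≥ 3`,
then `d` is `ℓ^n` or `2 ℓ^n` for one prime `ℓ ≡ 1 mod 4`, or `d = 4` and `p ≡ 5 mod 8`; and
`d = 4`, `p = 5` does occur.
-/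

namespace Pool.Agent.Results.MP_b95a42_nt.ChebyshevMaximal

open Pool.Agent.Lib.MP_b95a42_nt

theorem result :
    (∀ d p : ℕ, 3 ≤ d → p.Prime → p % 4 = 1 → ¬ p ∣ d → MaximalInChar d p →
      (d = 4 ∧ p % 8 = 5) ∨
        ∃ l n : ℕ, l.Prime ∧ l % 4 = 1 ∧ 1 ≤ n ∧ (d = l ^ n ∨ d = 2 * l ^ n)) ∧
    MaximalInChar 4 5 :=
  ⟨fun _ _ hd hp hp1 hpd hmax => shape_of_maximal hd hp hp1 hpd hmax, maximal_four_five⟩

end Pool.Agent.Results.MP_b95a42_nt.ChebyshevMaximal
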